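import Pool.Agent.H16.ORB.C

open Classical Finset

namespace Pool.ORB

section

variable {E Nd Sg W : Type} [Fintype E] [Fintype W] [Fintype Sg]

theorem add_point (h1 : ONEStmt) (D : Dat E Nd Sg W) (ρ u : FS E Nd) (X : FS E Nd)
    (hX : Fn (ρ ∪ X)) (hd : Disjoint X ρ) :
    D.wt (ρ ∪ X) u ≤ ((D.q : ℝ) ^ 2) ^ (u ∩ X).card * D.wt ρ u := by
  induction X using Finset.induction_on with
  | empty => simp
  | insert f X hf ih =>
    have hX' : Fn (ρ ∪ X) := by
      intro a ha b hb hab
      refine hX a ?_ b ?_ hab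
      · rcases Finset.mem_union.1 ha with h | h
        · exact Finset.mem_union_left _ h
        · exact Finset.mem_union_right _ (Finset.mem_insert_of_mem h)
      · rcases Finset.mem_union.1 hb with h | h
        · exact Finset.mem_union_left _ h
        · exact Finset.mem_union_right _ (Finset.mem_insert_of_mem h)
    have hd' : Disjoint X ρ := Finset.disjoint_of_subset_left (Finset.subset_insert f X) hd
    have hfρ : f ∉ ρ := fun h =>
      (Finset.disjoint_left.1 hd) (Finset.mem_insert_self f X) h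
    have hfn : f ∉ ρ ∪ X := by
      intro h
      rcases Finset.mem_union.1 h with h | h
      · exact hfρ h
      · exact hf h
    have hnd : f.1 ∉ dm (ρ ∪ X) := by
      intro h
      obtain ⟨r, hr, hrf⟩ := Finset.mem_image.1 h
      have hr' : r ∈ ρ ∪ insert f X := by
        rcases Finset.mem_union.1 hr with h | h
        · exact Finset.mem_union_left _ h
        · exact Finset.mem_union_right _ (Finset.mem_insert_of_mem h)
      have := hX r hr' f (Finset.mem_union_right _ (Finset.mem_insert_self f X)) hrf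
      exact hfn (this ▸ hr)
    have key := h1 D (ρ ∪ X) u f hnd
    have hun : ρ ∪ insert f X = insert f (ρ ∪ X) := by
      rw [Finset.union_insert]
    rw [hun]
    have ih' := ih hX' hd'
    by_cases hfu : f ∈ u
    · rw [key.2.1 hfu]
      have hc : (u ∩ insert f X).card = (u ∩ X).card + 1 := by
        have : u ∩ insert f X = insert f (u ∩ X) := by
          rw [Finset.inter_insert_of_mem hfu]
        rw [this, Finset.card_insert_of_notMem]
        intro h
        exact hf (Finset.mem_inter.1 h).2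
      rw [hc, pow_succ]
      have h0 : (0 : ℝ) ≤ (D.q : ℝ) ^ 2 := by positivity
      calc (D.q : ℝ) ^ 2 * D.wt (ρ ∪ X) u
          ≤ (D.q : ℝ) ^ 2 * (((D.q : ℝ) ^ 2) ^ (u ∩ X).card * D.wt ρ u) :=
            mul_le_mul_of_nonneg_left ih' h0
        _ = ((D.q : ℝ) ^ 2) ^ (u ∩ X).card * (D.q : ℝ) ^ 2 * D.wt ρ u := by ring
    · have hc : u ∩ insert f X = u ∩ X := Finset.inter_insert_of_notMem hfu
      rw [hc]
      by_cases hd1 : f.1 ∈ dm u
      · rw [key.2.2.1 hd1 hfu]
        have hw : 0 ≤ D.wt ρ u := by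
          have hfr : f.1 ∉ dm ρ := fun h => hnd (by
            obtain ⟨r, hr, hrf⟩ := Finset.mem_image.1 h
            exact Finset.mem_image.2 ⟨r, Finset.mem_union_left _ hr, hrf⟩)
          exact (h1 D ρ u f hfr).2.2.2.1
        positivity
      · rw [key.1 hd1]
        exact ih'

theorem wt_nonneg' (D : Dat E Nd Sg W) (ρ u : FS E Nd) : 0 ≤ D.wt ρ u := by
  unfold Dat.wt
  split_ifs
  · positivity
  · exact le_rfl

theorem add_leaf (h1 : ONEStmt) (D : Dat E Nd Sg W) (ρ u v : FS E Nd) (hv : Fn (ρ ∪ v)) :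
    D.wt (ρ ∪ v) u ≤ D.wt ρ u +
      ∑ g ∈ (v \ ρ).powerset.filter (fun g => g.Nonempty),
        (if g ⊆ u then ((D.q : ℝ) ^ 2) ^ g.card * D.wt ρ u else 0) := by
  have hun : ρ ∪ v = ρ ∪ (v \ ρ) := by
    rw [Finset.union_sdiff_self_eq_union]
  have hfn : Fn (ρ ∪ (v \ ρ)) := by rw [← hun]; exact hv
  have hdis : Disjoint (v \ ρ) ρ := Finset.sdiff_disjoint
  have hp := add_point h1 D ρ u (v \ ρ) hfn hdis
  rw [← hun] at hp
  have hw := wt_nonneg' D ρ u
  have hterm : ∀ g ∈ (v \ ρ).powerset.filter (fun g => g.Nonempty),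
      (0 : ℝ) ≤ (if g ⊆ u then ((D.q : ℝ) ^ 2) ^ g.card * D.wt ρ u else 0) := by
    intro g _
    split_ifs
    · positivity
    · exact le_rfl
  by_cases he : (u ∩ (v \ ρ)).Nonempty
  · have hmem : u ∩ (v \ ρ) ∈ (v \ ρ).powerset.filter (fun g => g.Nonempty) := by
      rw [Finset.mem_filter, Finset.mem_powerset]
      exact ⟨Finset.inter_subset_right, he⟩
    have hs := Finset.single_le_sum hterm hmem
    rw [if_pos Finset.inter_subset_left] at hs
    linarith
  · rw [Finset.not_nonempty_iff_eq_empty] at he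
    rw [he] at hp
    simp only [Finset.card_empty, pow_zero, one_mul] at hp
    have hs := Finset.sum_nonneg hterm
    linarith

end

theorem add (h1 : ONEStmt) : ADDStmt := by
  intro E Nd Sg W _ _ _ D s v hv
  have first : D.Psi ⟨s.ρ ∪ v, s.F⟩ ≤ D.Psi s +
      ∑ g ∈ (v \ s.ρ).powerset.filter (fun g => g.Nonempty),
        ((D.q : ℝ) ^ 2) ^ g.card * D.mm s g := by
    have hR : ∑ g ∈ (v \ s.ρ).powerset.filter (fun g => g.Nonempty),
        ((D.q : ℝ) ^ 2) ^ g.card * D.mm s g =
        ∑ σ : Bool, ∑ l ∈ s.F σ, ∑ g ∈ (v \ s.ρ).powerset.filter (fun g => g.Nonempty),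
          (if g ⊆ l.2 then ((D.q : ℝ) ^ 2) ^ g.card * D.wt s.ρ l.2 else 0) := by
      have hswap : ∑ σ : Bool, ∑ l ∈ s.F σ,
          ∑ g ∈ (v \ s.ρ).powerset.filter (fun g => g.Nonempty),
          (if g ⊆ l.2 then ((D.q : ℝ) ^ 2) ^ g.card * D.wt s.ρ l.2 else 0) =
          ∑ g ∈ (v \ s.ρ).powerset.filter (fun g => g.Nonempty), ∑ σ : Bool, ∑ l ∈ s.F σ,
          (if g ⊆ l.2 then ((D.q : ℝ) ^ 2) ^ g.card * D.wt s.ρ l.2 else 0) := by
        rw [Finset.sum_comm]
        refine Finset.sum_congr rfl fun σ _ => ?_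
        rw [Finset.sum_comm]
      rw [hswap]
      refine Finset.sum_congr rfl fun g _ => ?_
      unfold Dat.mm
      rw [Finset.mul_sum]
      refine Finset.sum_congr rfl fun σ _ => ?_
      rw [Finset.mul_sum, Finset.sum_filter]
    rw [hR]
    unfold Dat.Psi
    rw [← Finset.sum_add_distrib]
    refine Finset.sum_le_sum fun σ _ => ?_
    rw [← Finset.sum_add_distrib]
    exact Finset.sum_le_sum fun l _ => add_leaf h1 D s.ρ l.2 v hv
  refine ⟨first, fun hh => first.trans ?_⟩
  have hle : ∑ g ∈ (v \ s.ρ).powerset.filter (fun g => g.Nonempty),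
        ((D.q : ℝ) ^ 2) ^ g.card * D.mm s g ≤
      ∑ g ∈ (v \ s.ρ).powerset.filter (fun g => g.Nonempty), D.ε ^ g.card * D.M := by
    refine Finset.sum_le_sum fun g hg => ?_
    rw [Finset.mem_filter, Finset.mem_powerset] at hg
    obtain ⟨hgs, hgn⟩ := hg
    have hnh := hh g hgs
    by_contra hcon
    apply hnh
    refine ⟨hgn, ?_, ?_, (not_le.1 hcon).le⟩
    · intro a ha b hb hab
      exact hv a (Finset.mem_union_right _ (Finset.mem_sdiff.1 (hgs ha)).1) b
        (Finset.mem_union_right _ (Finset.mem_sdiff.1 (hgs hb)).1) hab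
    · rw [Finset.disjoint_left]
      intro e he he'
      obtain ⟨a, ha, rfl⟩ := Finset.mem_image.1 he
      obtain ⟨r, hr, hra⟩ := Finset.mem_image.1 he'
      have ha' := Finset.mem_sdiff.1 (hgs ha)
      have := hv r (Finset.mem_union_left _ hr) a (Finset.mem_union_right _ ha'.1) hra
      exact ha'.2 (this ▸ hr)
  have hsum : ∑ g ∈ (v \ s.ρ).powerset.filter (fun g => g.Nonempty), D.ε ^ g.card * D.M =
      ((1 + D.ε) ^ (v \ s.ρ).card - 1) * D.M := by
    rw [← Finset.sum_mul]
    congr 1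
    have htot := Finset.sum_pow_mul_eq_add_pow D.ε 1 (v \ s.ρ)
    simp only [one_pow, mul_one] at htot
    have hsplit := Finset.sum_filter_add_sum_filter_not (v \ s.ρ).powerset
      (fun g : FS E Nd => g.Nonempty) (fun g => D.ε ^ g.card)
    have hemp : (v \ s.ρ).powerset.filter (fun g : FS E Nd => ¬ g.Nonempty) = {∅} := by
      ext g
      rw [Finset.mem_filter, Finset.mem_powerset, Finset.mem_singleton,
        Finset.not_nonempty_iff_eq_empty]
      constructor
      · exact fun h => h.2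
      · rintro rfl
        exact ⟨Finset.empty_subset _, rfl⟩
    rw [hemp, Finset.sum_singleton, Finset.card_empty, pow_zero, htot] at hsplit
    rw [add_comm 1 D.ε]
    linarith
  linarith

end Pool.ORB
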